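import Pool.Agent.Helper52.PG.Goals
import Pool.Agent.Helper24.C2.Op

/-!
PROJECT C2 (MP_2b0227_gt), target (a), packet PH-NOGAP: no internal zeros for the class HH1.
-/

namespace Pool.Agent.Helper64.PG

open Pool.Agent.Helper52.C2 Pool.Agent.Helper52.PG
open LaurentPolynomial

theorem h_succ_R (hpre : GoalPre) (S : Tg) (n i : ℤ) :
    S.h (n + 1) i = S.h n i + S.R.coeff (i - n) := by
  have h := hpre.2.1 S.R (i - n)
  unfold Tg.h
  have e : i - (n + 1) = i - n - 1 := by ring
  rw [e]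
  linarith

theorem h_succ_L (hpre : GoalPre) (S : Tg) (n i : ℤ) :
    S.h (n + 1) i = S.h n (i - 1) + S.L.coeff i := by
  have h := hpre.2.1 S.L i
  unfold Tg.h
  have e : i - (n + 1) = i - 1 - n := by ring
  rw [e]
  linarith

/-- The window argument. -/
theorem win3 (M : Dir Unit → Dir Unit → ℝ) (ok : Dir Unit → Prop) (hok : ∀ d, ok d)
    (hM : OnePos ok M) (hXY : M .Y .X = M .X .Y) (hXV : M .X (.V ()) = 0)
    (hVX : M (.V ()) .X = 0) (hYV : 0 < M .Y (.V ())) (hVY : M (.V ()) .Y = M .Y (.V ()))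
    (hVV : M (.V ()) (.V ()) = 0) : M .X .X ≤ 0 := by
  by_contra hcon
  push Not at hcon
  obtain ⟨l, hl⟩ := hM
  obtain ⟨c, hc⟩ : ∃ c : ℝ, M .X .X * (M .Y .Y + 2 * c * M .Y (.V ())) =
      M .X .Y ^ 2 + M .X .X := by
    refine ⟨(M .X .Y ^ 2 / M .X .X + 1 - M .Y .Y) / (2 * M .Y (.V ())), ?_⟩
    field_simp
    ring
  obtain ⟨p, q, hpq, hz⟩ : ∃ p q : ℝ, (p ≠ 0 ∨ q ≠ 0) ∧
      l .X * p + (l .Y + l (.V ()) * c) * q = 0 := by
    by_cases h : l .X = 0 ∧ l .Y + l (.V ()) * c = 0
    · exact ⟨1, 0, Or.inl one_ne_zero, by simp [h.1]⟩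
    · refine ⟨l .Y + l (.V ()) * c, - l .X, ?_, by ring⟩
      by_contra hcon2
      push Not at hcon2
      exact h ⟨by simpa using hcon2.2, hcon2.1⟩
  set v : Dir Unit → ℝ := fun d => match d with
    | .X => p
    | .Y => q
    | .V _ => c * q with hv
  have h1 := hl v (fun a ha => absurd (hok a) ha) (by
    rw [Pool.Agent.Helper24.C2.sumDir]
    simp only [hv, Finset.univ_unique, Finset.sum_singleton, PUnit.default_eq_unit]
    linarith)
  have h2 : quad M v = M .X .X * p ^ 2 + 2 * M .X .Y * p * q +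
      (M .Y .Y + 2 * c * M .Y (.V ())) * q ^ 2 := by
    unfold quad
    simp only [Pool.Agent.Helper24.C2.sumDir, hv, Finset.univ_unique, Finset.sum_singleton,
      PUnit.default_eq_unit]
    rw [hXY, hXV, hVX, hVY, hVV]
    ring
  rw [h2] at h1
  have h3 : (M .X .X * p + M .X .Y * q) ^ 2 + M .X .X * q ^ 2 ≤ 0 := by
    have e : (M .X .X * p + M .X .Y * q) ^ 2 + M .X .X * q ^ 2 =
        M .X .X * (M .X .X * p ^ 2 + 2 * M .X .Y * p * q +
          (M .Y .Y + 2 * c * M .Y (.V ())) * q ^ 2) := by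
      linear_combination (-q ^ 2) * hc
    rw [e]
    exact mul_nonpos_of_nonneg_of_nonpos hcon.le h1
  have h4 : 0 ≤ (M .X .X * p + M .X .Y * q) ^ 2 := sq_nonneg _
  have h5 : 0 ≤ M .X .X * q ^ 2 := mul_nonneg hcon.le (sq_nonneg q)
  have h6 : M .X .X * q ^ 2 = 0 := by linarith
  have hq : q = 0 := by
    rcases mul_eq_zero.1 h6 with h | h
    · exact absurd h hcon.ne'
    · exact pow_eq_zero_iff (two_ne_zero) |>.1 h
  have h7 : (M .X .X * p + M .X .Y * q) ^ 2 = 0 := by linarith
  have h8 : M .X .X * p + M .X .Y * q = 0 := pow_eq_zero_iff (two_ne_zero) |>.1 h7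
  rw [hq, mul_zero, add_zero] at h8
  rcases mul_eq_zero.1 h8 with h | h
  · exact absurd h hcon.ne'
  · rcases hpq with h' | h'
    · exact h' h
    · exact h' hq

theorem h_zero (hpre : GoalPre) (S : Tg) (i : ℤ) : S.h 0 i = S.F.coeff i := by
  unfold Tg.h
  rw [hpre.1 S i, sub_zero]

theorem h_nonneg (hpre : GoalPre) (S : Tg) (hS : S.HH1) (n : ℕ) (i : ℤ) : 0 ≤ S.h n i := by
  induction n with
  | zero =>
    rw [Nat.cast_zero, h_zero hpre]
    exact hS.nonneg.F i
  | succ n ih =>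
    rw [Nat.cast_succ, h_succ_R hpre]
    have := hS.nonneg.R (i - n)
    linarith

theorem h_ge (hpre : GoalPre) (S : Tg) (hS : S.HH1) (n : ℕ) (i : ℤ) :
    S.F.coeff i ≤ S.h n i := by
  induction n with
  | zero =>
    rw [Nat.cast_zero, h_zero hpre]
  | succ n ih =>
    rw [Nat.cast_succ, h_succ_R hpre]
    have := hS.nonneg.R (i - n)
    linarith

/-- the claim -/
theorem claim (hpre : GoalPre) (S : Tg) (hS : S.HH1) (p : ℤ) (hp : 0 < S.F.coeff p)
    (hp1 : S.F.coeff (p + 1) = 0) (n : ℕ) :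
    (0 < S.h n (p + n) ∧ S.h n (p + n + 1) = 0) ∧
      (0 < S.h (n + 1 : ℕ) (p + (n + 1 : ℕ)) ∧ S.h (n + 1 : ℕ) (p + (n + 1 : ℕ) + 1) = 0) := by
  -- the step
  have step : ∀ n : ℕ, 0 < S.h n (p + n) → S.h n (p + n + 1) = 0 →
      (if n = 0 then max (S.h (-1) p) 0 else S.h ((n : ℤ) - 1) (p + n)) = 0 →
      0 < S.h (n + 1 : ℕ) (p + (n + 1 : ℕ)) ∧ S.h (n + 1 : ℕ) (p + (n + 1 : ℕ) + 1) = 0 := by
    intro n h1 h2 h3
    constructor
    · have e1 : ((n + 1 : ℕ) : ℤ) = (n : ℤ) + 1 := by push_cast; ring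
      rw [e1, h_succ_L hpre]
      have e2 : p + ((n : ℤ) + 1) - 1 = p + n := by ring
      rw [e2]
      have := hS.nonneg.L (p + ((n : ℤ) + 1))
      linarith
    · have hw := hS.win (n + 1) (p + n)
      have e1 : (((n + 1 : ℕ) : ℤ) - 1) = n := by push_cast; ring
      have e3 : (((n + 1 : ℕ) : ℤ) - 2) = (n : ℤ) - 1 := by push_cast; ring
      have key := win3 (S.win (n + 1) (p + n)) _ (by
        intro d
        cases d with
        | X => trivial
        | Y => trivial
        | V k => exact Nat.succ_le_succ (Nat.zero_le n)) hw rfl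
        (by
          change S.h (((n + 1 : ℕ) : ℤ) - 1) (p + n + 1) = 0
          rw [e1]
          exact h2)
        (by
          change S.h (((n + 1 : ℕ) : ℤ) - 1) (p + n + 1) = 0
          rw [e1]
          exact h2)
        (by
          change 0 < S.h (((n + 1 : ℕ) : ℤ) - 1) (p + n)
          rw [e1]
          exact h1)
        rfl
        (by
          change (if n + 1 = 1 then max (S.h (-1) (p + n)) 0 else
            S.h (((n + 1 : ℕ) : ℤ) - 2) (p + n)) = 0
          rw [e3]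
          by_cases hn : n = 0
          · subst hn
            rw [if_pos rfl] at h3 ⊢
            rw [Nat.cast_zero, add_zero]
            exact h3
          · rw [if_neg hn] at h3
            rw [if_neg (by omega)]
            exact h3)
      have e4 : S.win (n + 1) (p + n) .X .X = S.h (n + 1 : ℕ) (p + (n + 1 : ℕ) + 1) := by
        change S.h (n + 1 : ℕ) (p + n + 2) = _
        congr 1
        push_cast
        ring
      rw [e4] at key
      exact le_antisymm key (h_nonneg hpre S hS _ _)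
  have hm1 : max (S.h (-1) p) 0 = 0 := by
    apply max_eq_right
    have h := h_succ_L hpre S (-1) (p + 1)
    rw [neg_add_cancel, add_sub_cancel_right, h_zero hpre, hp1] at h
    have := hS.nonneg.L (p + 1)
    linarith
  induction n with
  | zero =>
    have h0 : 0 < S.h (0 : ℕ) (p + (0 : ℕ)) := by
      rw [Nat.cast_zero, add_zero, h_zero hpre]
      exact hp
    have h0' : S.h (0 : ℕ) (p + (0 : ℕ) + 1) = 0 := by
      rw [Nat.cast_zero, add_zero, h_zero hpre]
      exact hp1
    exact ⟨⟨h0, h0'⟩, step 0 h0 h0' (by rw [if_pos rfl]; exact hm1)⟩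
  | succ n ih =>
    refine ⟨ih.2, step (n + 1) ih.2.1 ih.2.2 ?_⟩
    rw [if_neg (Nat.succ_ne_zero n)]
    have := ih.1.2
    have e1 : (((n + 1 : ℕ) : ℤ) - 1) = n := by push_cast; ring
    have e2 : p + ((n + 1 : ℕ) : ℤ) = p + n + 1 := by push_cast; ring
    rw [e1, e2]
    exact this

theorem nogap (hpre : GoalPre) (S : Tg) (hS : S.HH1) (i j k : ℤ) (hij : i < j) (hjk : j < k)
    (hi : S.F.coeff i ≠ 0) (hk : S.F.coeff k ≠ 0) : S.F.coeff j ≠ 0 := by
  intro hj
  classical
  have hex : ∃ m : ℕ, S.F.coeff (i + m) = 0 := by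
    refine ⟨(j - i).toNat, ?_⟩
    rw [Int.toNat_of_nonneg (by omega)]
    rw [add_sub_cancel]
    exact hj
  have hN := Nat.find_spec hex
  have hmin : Nat.find hex ≤ (j - i).toNat := by
    apply Nat.find_min'
    rw [Int.toNat_of_nonneg (by omega), add_sub_cancel]
    exact hj
  have hpos : Nat.find hex ≠ 0 := by
    intro h0
    rw [h0, Nat.cast_zero, add_zero] at hN
    exact hi hN
  obtain ⟨N, hN1⟩ := Nat.exists_eq_succ_of_ne_zero hpos
  have hprev : S.F.coeff (i + N) ≠ 0 := Nat.find_min hex (m := N) (by omega)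
  have hp : 0 < S.F.coeff (i + N) := lt_of_le_of_ne (hS.nonneg.F _) (Ne.symm hprev)
  have hp1 : S.F.coeff (i + N + 1) = 0 := by
    rw [hN1] at hN
    have e : i + ((N.succ : ℕ) : ℤ) = i + N + 1 := by push_cast; ring
    rw [← e]
    exact hN
  have hc := (claim hpre S hS (i + N) hp hp1 (k - (i + N) - 1).toNat).1.2
  have hle : (0 : ℤ) ≤ k - (i + N) - 1 := by
    have : (Nat.find hex : ℤ) ≤ j - i := by
      have h := Int.toNat_of_nonneg (show 0 ≤ j - i by omega)
      omega
    rw [hN1] at this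
    push_cast at this
    omega
  rw [Int.toNat_of_nonneg hle] at hc
  have h2 := h_ge hpre S hS (k - (i + N) - 1).toNat k
  rw [Int.toNat_of_nonneg hle] at h2
  have e : i + N + (k - (i + N) - 1) + 1 = k := by ring
  rw [e] at hc
  rw [hc] at h2
  exact hk (le_antisymm h2 (hS.nonneg.F k))

/-- NOGAP -/
theorem noGap : GoalNoGap := by
  intro hpre hcross
  refine ⟨fun S hS i j k hij hjk hi hk => nogap hpre S hS i j k hij hjk hi hk,
    fun A B hG i j k hij hjk hi hk => ?_⟩
  have e : (bes A B (U 1)).F = B := by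
    change B * geo 1 = B
    have : geo 1 = 1 := by
      unfold geo
      simp
    rw [this, mul_one]
  have h := nogap hpre (bes A B (U 1)) (hG _ hcross) i j k hij hjk
  rw [e] at h
  exact h hi hk

end Pool.Agent.Helper64.PG
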