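import Pool.Agent.Helper99.PG.Goals

/-!
PROJECT C2 (MP_2b0227_gt), target (a): the goal CASE1.
-/

namespace Pool.Agent.Helper64.PG

open Pool.Agent.Helper99.PG
open scoped Classical

theorem inv_zpow {E : Type} (s : Equiv.Perm E) (a : E → ℝ) (h : ∀ e, a (s e) = a e) (i : ℤ)
    (e : E) : a ((s ^ i) e) = a e := by
  have h' : ∀ x, a (s⁻¹ x) = a x := by
    intro x
    have h1 := h (s⁻¹ x)
    have h2 : s (s⁻¹ x) = x := Equiv.apply_symm_apply s x
    rw [h2] at h1
    exact h1.symm
  induction i using Int.induction_on with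
  | zero => simp
  | succ n ih =>
    rw [add_comm, zpow_one_add, Equiv.Perm.mul_apply, h, ih]
  | pred n ih =>
    rw [sub_eq_add_neg, add_comm, zpow_add, zpow_neg_one, Equiv.Perm.mul_apply, h', ih]

theorem inv_same {E : Type} (s : Equiv.Perm E) (a : E → ℝ) (h : ∀ e, a (s e) = a e) {e e' : E}
    (hs : s.SameCycle e e') : a e = a e' := by
  obtain ⟨i, hi⟩ := hs
  rw [← hi, inv_zpow s a h]

/-- a predecessor of a port `(w, true)` -/
theorem suc_true {V : Type} {up dn : V → Option V} {W : Finset V} {A : V → Bool} {p : Port V}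
    {w : V} (h : suc up dn W A p = some (w, true)) :
    (p.1 ∈ W → A p.1 = true) ∧ up p.1 = some w := by
  unfold suc nxt at h
  by_cases h1 : p.1 ∈ W
  · simp only [h1, if_true] at h
    split_ifs at h with h2
    · refine ⟨fun _ => h2, ?_⟩
      rw [Option.map_eq_some_iff] at h
      obtain ⟨y, hy, hyw⟩ := h
      rw [hy, (Prod.mk.inj hyw).1]
    · rw [Option.map_eq_some_iff] at h
      obtain ⟨y, hy, hyw⟩ := h
      exact absurd (Prod.mk.inj hyw).2 (by decide)
  · simp only [h1, if_false] at h
    split_ifs at h with h2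
    · refine ⟨fun h3 => absurd h3 h1, ?_⟩
      rw [Option.map_eq_some_iff] at h
      obtain ⟨y, hy, hyw⟩ := h
      rw [hy, (Prod.mk.inj hyw).1]
    · rw [Option.map_eq_some_iff] at h
      obtain ⟨y, hy, hyw⟩ := h
      exact absurd (Prod.mk.inj hyw).2 (by decide)

theorem case1 : GoalCase1 := by
  intro V _ _ H G hG κ W A Z zp zq g hc hg0
  have ha : ∀ e, g (H.α e) + zp (H.α e) = g e + zp e := fun e => by linarith [hc.hg e]
  have hb : ∀ e, g (H.α (H.β e)) + zq (H.β e) = g (H.α e) + zq e := by
    intro e
    have h1 := hc.hg' (H.β e)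
    rw [Equiv.symm_apply_apply] at h1
    have h2 := hc.face e
    linarith
  have hp0 : ∀ e, zp e = 0 ∨ ∃ w, e = some w ∧ (w, true) ∈ Z ∧ zp e = 1 := by
    intro e
    cases e with
    | none => exact Or.inl hc.zp_none
    | some w =>
      by_cases hw : (w, true) ∈ Z
      · right
        exact ⟨w, rfl, hw, by rw [hc.zp_some, if_pos hw]⟩
      · left
        rw [hc.zp_some, if_neg hw]
  have hp : ∀ e, 0 ≤ zp e := by
    intro e
    rcases hp0 e with h | ⟨_, _, _, h⟩ <;> rw [h]
    exact zero_le_one
  have hq : ∀ v : V, 0 ≤ zq (some v) := by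
    intro v
    rw [hc.zq_some]
    split_ifs
    · exact zero_le_one
    · exact le_refl 0
  -- the set of circles with a positive value
  set U : Finset G.C := Finset.univ.filter fun c =>
    (∃ e, G.lf e = c ∧ 0 < g e + zp e) ∨ ∃ e, G.rt e = c ∧ 0 < g (H.α e) + zq e with hU
  have hlf : ∀ e, G.lf e ∈ U ↔ 0 < g e + zp e := by
    intro e
    rw [hU, Finset.mem_filter]
    constructor
    · rintro ⟨_, ⟨e', he', h⟩ | ⟨e', he', _⟩⟩
      · have h9 : g e' + zp e' = g e + zp e :=
          inv_same H.α (fun e => g e + zp e) ha ((hG.1 e' e).1 he')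
        rw [← h9]
        exact h
      · exact absurd (he' ▸ G.lf_left e) (G.rt_left e')
    · intro h
      exact ⟨Finset.mem_univ _, Or.inl ⟨e, rfl, h⟩⟩
  have hrt : ∀ e, G.rt e ∈ U ↔ 0 < g (H.α e) + zq e := by
    intro e
    rw [hU, Finset.mem_filter]
    constructor
    · rintro ⟨_, ⟨e', he', _⟩ | ⟨e', he', h⟩⟩
      · exact absurd (he' ▸ G.lf_left e') (G.rt_left e)
      · have h9 : g (H.α e') + zq e' = g (H.α e) + zq e :=
          inv_same H.β (fun e => g (H.α e) + zq e) hb ((hG.2.1 e' e).1 he')
        rw [← h9]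
        exact h
    · intro h
      exact ⟨Finset.mem_univ _, Or.inr ⟨e, rfl, h⟩⟩
  have hln : G.lf none ∉ U := by
    rw [hlf, hc.zp_none]
    linarith
  have hrn : κ = true → G.rt none ∉ U := by
    intro hκ
    rw [hrt, hc.zq_κ hκ]
    have h1 := hc.hg none
    rw [hc.zp_none, hc.zp_α] at h1
    linarith
  -- the predecessor of the port after `v`
  have pre : ∀ v w : V, H.α (some v) = some w → (w, true) ∈ Z →
      ∃ d, (v, d) ∈ Z ∧ (v ∈ W → A v = true) := by
    intro v w hvw hw
    obtain ⟨p, hpZ, hps⟩ := hc.prev _ hw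
    obtain ⟨h1, h2⟩ := suc_true hps
    have h3 : H.α (some p.1) = H.α (some v) := by
      rw [hvw]
      exact h2
    have h4 : p.1 = v := Option.some.inj (H.α.injective h3)
    refine ⟨p.2, ?_, ?_⟩
    · rw [← h4]
      exact hpZ
    · rw [← h4]
      exact h1
  have claim1 : ∀ v ∈ W, G.lf (some v) ∈ U → G.rt (some v) ∉ U → A v = true := by
    intro v hv h1 h2
    rw [hlf] at h1
    rw [hrt, not_lt] at h2
    by_contra hA
    have hg1 := hc.hg (some v)
    by_cases hZ : (v, true) ∈ Z
    · have hz := hc.zero v hZ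
      have hzp : zp (some v) = 1 := by rw [hc.zp_some, if_pos hZ]
      rcases hp0 (H.α (some v)) with h3 | ⟨w, hw, hwZ, _⟩
      · have := hq v
        linarith
      · obtain ⟨d, _, hd⟩ := pre v w hw hwZ
        exact hA (hd hv)
    · have hzp : zp (some v) = 0 := by rw [hc.zp_some, if_neg hZ]
      rcases hp0 (H.α (some v)) with h3 | ⟨w, hw, hwZ, _⟩
      · have := hq v
        linarith
      · obtain ⟨d, _, hd⟩ := pre v w hw hwZ
        exact hA (hd hv)
  have claim2 : ∀ v ∈ W, G.lf (some v) ∉ U → G.rt (some v) ∈ U → A v = false := by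
    intro v hv h1 h2
    rw [hlf, not_lt] at h1
    rw [hrt] at h2
    have hg1 := hc.hg (some v)
    have hpa := hp (H.α (some v))
    have hpv := hp (some v)
    by_cases hZ : (v, false) ∈ Z
    · by_contra hA
      have hA' : A v = true := by
        cases hh : A v
        · exact absurd hh hA
        · rfl
      have hz := hc.zero' v hZ
      obtain ⟨q, hqZ, hq1⟩ := hc.next _ hZ
      have hq2 : (H.α (some v)).map (fun w => (w, true)) = some q := by
        have := hq1
        unfold suc nxt at this
        simp only [hv, if_true, hA'] at this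
        exact this
      rw [Option.map_eq_some_iff] at hq2
      obtain ⟨w, hw, hwq⟩ := hq2
      have hwZ : (w, true) ∈ Z := by rw [hwq]; exact hqZ
      have h5 : zp (H.α (some v)) = 1 := by rw [hw, hc.zp_some, if_pos hwZ]
      have h6 : (v, true) ∉ Z := by
        intro hvt
        have := hc.inj _ hvt _ hZ (by
          unfold suc
          simp only [hv, if_true])
        simp at this
      have h7 : zp (some v) = 0 := by rw [hc.zp_some, if_neg h6]
      linarith
    · exfalso
      have h3 : zq (some v) = 0 := by rw [hc.zq_some, if_neg hZ]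
      rcases hp0 (some v) with h4 | ⟨w, hw, hwZ, h4⟩
      · linarith
      · have hwv : v = w := Option.some.inj hw
        subst hwv
        have := hc.zero v hwZ
        linarith
  refine ⟨Uᶜ, ⟨G.lf none, by rw [Finset.mem_compl]; exact hln⟩, ?_, ?_⟩
  · intro h
    have hne : U.Nonempty := by
      obtain ⟨⟨v, d⟩, hvd⟩ := hc.ne
      cases d with
      | true =>
        refine ⟨G.lf (some v), ?_⟩
        rw [hlf, hc.zero v hvd, hc.zp_some, if_pos hvd]
        norm_num
      | false =>
        refine ⟨G.rt (some v), ?_⟩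
        rw [hrt, hc.zero' v hvd, hc.zq_some, if_pos hvd]
        norm_num
    obtain ⟨c, hc'⟩ := hne
    have : c ∈ Uᶜ := by rw [h]; exact Finset.mem_univ _
    rw [Finset.mem_compl] at this
    exact this hc'
  · have hex : exits G κ Uᶜ = 1 := by
      unfold exits
      rw [if_pos]
      refine ⟨?_, ?_⟩
      · rw [Finset.mem_compl]; exact hln
      · intro hκ
        rw [Finset.mem_compl]; exact hrn hκ
    have hle : chosen G W A Uᶜ ≤ Pool.Agent.Helper99.PG.inner G W Uᶜ := by
      unfold chosen Pool.Agent.Helper99.PG.inner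
      rw [Nat.cast_le]
      apply Finset.card_le_card
      intro v hv
      rw [Finset.mem_filter, Finset.mem_compl] at hv
      rw [Finset.mem_filter, Finset.mem_compl, Finset.mem_compl]
      obtain ⟨hvW, hv2⟩ := hv
      unfold pick at hv2
      refine ⟨hvW, ?_⟩
      by_cases h1 : G.lf (some v) ∈ U <;> by_cases h2 : G.rt (some v) ∈ U
      · exfalso
        split_ifs at hv2
        · exact hv2 h1
        · exact hv2 h2
      · exfalso
        rw [claim1 v hvW h1 h2, if_pos rfl] at hv2
        exact hv2 h1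
      · exfalso
        rw [claim2 v hvW h1 h2] at hv2
        simp only [Bool.false_eq_true, if_false] at hv2
        exact hv2 h2
      · exact ⟨h1, h2⟩
    rw [hex]
    linarith

end Pool.Agent.Helper64.PG
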